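import Pool.Agent.Lib.MP_7cdc3e_gt.C.Defs
import Pool.Agent.Lib.MP_7cdc3e_gt.T0.Exp
import Pool.Agent.Lib.MP_7cdc3e_gt.C.T4a.Defs

/-!
# MP_7cdc3e_gt, C32, T1: even sets of the form `{g ≤ c}`; acyclic half-spaces
-/

set_option autoImplicit false

open HoloConj Pool.Agent.Lib.SingHom Module

namespace TightRP

namespace C3

theorem pj_neg' (x : E4) : pj (-x) = pj x := by
  by_cases h : x ∈ Sp
  · exact pj_neg h
  · have h' : -x ∉ Sp := fun h1 => h (by
      have h2 := neg_mem_Sp h1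
      rwa [neg_neg] at h2)
    unfold pj
    rw [dif_neg h, dif_neg h']

theorem isCompact_Sp : IsCompact Sp := isCompact_sphere _ _

/-- **D4.** An even closed zero set has an even neighbourhood `{g ≤ c}`. -/
theorem even_le_zr {ev : W →ₗ[ℝ] (RP3 → ℝ)} {g : W} (hc : Continuous (ev g)) (hg : g ∈ Cn ev)
    (hE : Even (Zr ev g)) : ∃ c > 0, Even {x | ev g x ≤ c} := by
  obtain ⟨U, hU, h1⟩ := hE
  have hcl : IsClosed (Zr ev g) := isClosed_eq hc continuous_const
  have hcpt := up_compact hcl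
  -- the two parts
  set B : Set E4 := up (Zr ev g) ∩ {x | -x ∉ U} with hB
  set B' : Set E4 := up (Zr ev g) ∩ {x | x ∉ U} with hB'
  have hBc : IsClosed B := (up_closed hcl).inter (hU.isClosed_compl.preimage continuous_neg)
  have hBc' : IsClosed B' := (up_closed hcl).inter hU.isClosed_compl
  have hneg : ∀ x, x ∈ B ↔ -x ∈ B' := by
    intro x
    constructor
    · rintro ⟨h2, h3⟩
      exact ⟨neg_mem_up h2, h3⟩
    · rintro ⟨h2, h3⟩
      refine ⟨?_, h3⟩
      have := neg_mem_up h2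
      rwa [neg_neg] at this
  have hdis : ∀ x, x ∈ B → x ∉ B' := by
    rintro x ⟨h2, h3⟩ ⟨_, h4⟩
    exact h4 ((h1 x h2).2 h3)
  have hcov : ∀ x ∈ up (Zr ev g), x ∈ B ∨ x ∈ B' := by
    intro x hx
    by_cases h2 : x ∈ U
    · exact Or.inl ⟨hx, (h1 x hx).1 h2⟩
    · exact Or.inr ⟨hx, h2⟩
  by_cases hne : (up (Zr ev g)).Nonempty
  swap
  · -- no zeros
    rw [Set.not_nonempty_iff_eq_empty] at hne
    have hpos : ∀ x, 0 < ev g x := by
      intro x
      refine lt_of_le_of_ne (hg x) fun h2 => ?_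
      obtain ⟨y, hy, hyx⟩ := pj_surj x
      have h3 : y ∈ up (Zr ev g) := ⟨hy, by rw [hyx]; exact h2.symm⟩
      rw [hne] at h3
      exact h3
    have := cptRP3
    have : Nonempty RP3 := ⟨pj 0⟩
    obtain ⟨x₀, -, hx₀⟩ := isCompact_univ.exists_isMinOn Set.univ_nonempty hc.continuousOn
    refine ⟨ev g x₀ / 2, half_pos (hpos x₀), ∅, isOpen_empty, ?_⟩
    rintro x ⟨_, hx⟩
    exfalso
    have h2 : ev g x₀ ≤ ev g (pj x) := hx₀ (Set.mem_univ _)
    have h3 : ev g (pj x) ≤ ev g x₀ / 2 := hx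
    linarith [hpos x₀]
  obtain ⟨x₁, hx₁⟩ := hne
  have hBne : B.Nonempty := by
    rcases hcov x₁ hx₁ with h | h
    · exact ⟨x₁, h⟩
    · refine ⟨-x₁, (hneg _).2 ?_⟩
      rwa [neg_neg]
  have hBne' : B'.Nonempty := by
    obtain ⟨x, hx⟩ := hBne
    exact ⟨-x, (hneg x).1 hx⟩
  have hdist : ∀ x, Metric.infDist (-x) B = Metric.infDist x B' := by
    intro x
    apply le_antisymm
    · refine (Metric.le_infDist hBne').2 fun {y} hy => ?_
      have h2 : -y ∈ B := (hneg _).2 (by rwa [neg_neg])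
      calc Metric.infDist (-x) B ≤ dist (-x) (-y) := Metric.infDist_le_dist_of_mem h2
        _ = dist x y := dist_neg_neg x y
    · refine (Metric.le_infDist hBne).2 fun {y} hy => ?_
      have h2 : -y ∈ B' := (hneg y).1 hy
      calc Metric.infDist x B' ≤ dist x (-y) := Metric.infDist_le_dist_of_mem h2
        _ = dist (-x) y := by rw [← dist_neg_neg, neg_neg]
  have hdist' : ∀ x, Metric.infDist (-x) B' = Metric.infDist x B := by
    intro x
    rw [← hdist, neg_neg]
  set V : Set E4 := {x | Metric.infDist x B < Metric.infDist x B'} with hV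
  have hVo : IsOpen V := isOpen_lt (Metric.continuous_infDist_pt _) (Metric.continuous_infDist_pt _)
  set K : Set E4 := Sp ∩ {x | Metric.infDist x B = Metric.infDist x B'} with hK
  have hKc : IsCompact K := isCompact_Sp.inter_right
    (isClosed_eq (Metric.continuous_infDist_pt _) (Metric.continuous_infDist_pt _))
  have hKpos : ∀ x ∈ K, 0 < ev g (pj x) := by
    rintro x ⟨hx, hxe⟩
    refine lt_of_le_of_ne (hg _) fun h2 => ?_
    have hxe' : Metric.infDist x B = Metric.infDist x B' := hxe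
    have h3 : x ∈ up (Zr ev g) := ⟨hx, h2.symm⟩
    rcases hcov x h3 with h4 | h4
    · have h5 : Metric.infDist x B' = 0 := by
        rw [← hxe', Metric.infDist_zero_of_mem h4]
      exact hdis x h4 ((hBc'.mem_iff_infDist_zero hBne').2 h5)
    · have h5 : Metric.infDist x B = 0 := by
        rw [hxe', Metric.infDist_zero_of_mem h4]
      exact hdis x ((hBc.mem_iff_infDist_zero hBne).2 h5) h4
  have key : ∃ c > 0, ∀ x ∈ K, c < ev g (pj x) := by
    by_cases hKne : K.Nonempty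
    · obtain ⟨x₂, hx₂, hmin⟩ := hKc.exists_isMinOn hKne
        ((hc.comp_continuousOn pj_cont).mono Set.inter_subset_left)
      refine ⟨ev g (pj x₂) / 2, half_pos (hKpos x₂ hx₂), fun x hx => ?_⟩
      have h2 : ev g (pj x₂) ≤ ev g (pj x) := hmin hx
      linarith [hKpos x₂ hx₂]
    · rw [Set.not_nonempty_iff_eq_empty] at hKne
      refine ⟨1, one_pos, fun x hx => ?_⟩
      rw [hKne] at hx
      exact hx.elim
  obtain ⟨c, hc0, hcK⟩ := key
  refine ⟨c, hc0, V, hVo, ?_⟩
  rintro x ⟨hx, hxc⟩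
  have hxc' : ev g (pj x) ≤ c := hxc
  have hne : Metric.infDist x B ≠ Metric.infDist x B' := fun h2 =>
    absurd (hcK x ⟨hx, h2⟩) (not_lt.2 hxc')
  have h3 : x ∈ V ↔ Metric.infDist x B < Metric.infDist x B' := Iff.rfl
  have h4 : -x ∈ V ↔ Metric.infDist x B' < Metric.infDist x B := by
    show Metric.infDist (-x) B < Metric.infDist (-x) B' ↔ _
    rw [hdist, hdist']
  rw [h3, h4, not_lt]
  constructor
  · exact fun h => h.le
  · exact fun h => lt_of_le_of_ne h hne

/-- `RP³` is not even -/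
theorem not_even_univ (h1 : T0.XOne) (h2 : T0.XPow) (h3 : AS.R3.S_RP) {A : Set RP3}
    (hA : A = Set.univ) : ¬ Even A := by
  subst hA
  intro hE
  have h4 := (h1 Set.univ isClosed_univ).2 hE
  have h5 := h2 Set.univ 1 3 (by norm_num) h4
  apply h3.1
  have h6 : ∀ (X : Set E4) (h0 : (0 : E4) ∉ X), X = up Set.univ → AS.ap 3 X h0 = 0 := by
    rintro X h0 rfl
    exact h5
  exact h6 _ _ up_univ.symm

/-- even half-spaces are acyclic -/
theorem acy_half (hG : T0.XGen) (h1 : T0.XOne) (h2 : T0.XPow) (n2 : AS.N2) {F : Type} [Field F]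
    {ev : W →ₗ[ℝ] (RP3 → ℝ)} (h : CSys F ev) (g : W) (hne : {x | 0 ≤ ev g x}.Nonempty)
    (hE : Even {x | 0 ≤ ev g x}) : AS.Acy (AS.Pm E4) (up {x | 0 ≤ ev g x}) := by
  have hcl : IsClosed {x | 0 ≤ ev g x} := isClosed_le continuous_const (h.cont g)
  have h0 := zero_notMem_up {x | 0 ≤ ev g x}
  have hgen := hG F ev h g
  have hup : (up {x | 0 ≤ ev g x}).Nonempty := by
    obtain ⟨z, hz⟩ := hne
    obtain ⟨x, hx, rfl⟩ := pj_surj z
    exact ⟨x, hx, hz⟩
  have ha : AS.ap 1 _ h0 = 0 := (h1 _ hcl).2 hE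
  refine ⟨fun x => ?_, (n2 E4 (AS.Pm E4) _).2 hup, fun n x => ?_⟩
  · have h3 := hgen h0 0 x
    have h4 : AS.ap 0 _ h0 = AS.one (AS.Pm E4) (up {x | 0 ≤ ev g x}) := by
      unfold AS.ap AS.one
      rw [AS.cl_eq_cl]
      refine AS.Bnd_of_Z0 (AS.Iv.add (AS.apc_cyc 0 h0 ∅ (Set.inter_empty _)).1
        (AS.one_mem (AS.Pm E4) (up {x | 0 ≤ ev g x})).1) ⟨1, one_pos, fun l hl hs => ?_⟩
      obtain ⟨x, rfl⟩ := List.length_eq_one_iff.mp hl
      rw [Pi.add_apply, AS.apc_pos rfl]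
      · show (1 : ZMod 2) + 1 = 0
        decide
      · intro h
        rw [List.mem_singleton] at h
        exact h0 (h ▸ hs.1 x List.mem_cons_self)
    rwa [h4] at h3
  · rcases hgen h0 (n + 1) x with h3 | h3
    · exact h3
    · rw [h3]
      exact h2 _ 1 (n + 1) (by omega) ha

end C3

end TightRP
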