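import Pool.Agent.Lib.MP_7cdc3e_gt.C.J3.Top
import Pool.Agent.Lib.MP_7cdc3e_gt.C.J3.Ev
import Pool.Agent.Lib.MP_7cdc3e_gt.Q.Cvh

/-!
# MP_7cdc3e_gt, C32, T2, Lemma J: faces of rank three have dimension at least six
-/

set_option autoImplicit false

open HoloConj Pool.Agent.Lib.SingHom Module

namespace TightRP

namespace C3

namespace LemJ

/-- compactness -/
theorem unif_neg {K : Set E4} (hK : IsCompact K) (Φ : E4 → RP3 → ℝ)
    (hΦ : ∀ x, Continuous fun t => Φ t x) (h : ∀ t ∈ K, ∃ x, Φ t x < 0) :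
    ∃ μ > 0, ∀ t ∈ K, ∃ x, Φ t x ≤ -μ := by
  refine hK.induction_on (p := fun K => ∃ μ > 0, ∀ t ∈ K, ∃ x, Φ t x ≤ -μ)
    ⟨1, one_pos, fun t ht => absurd ht (Set.notMem_empty t)⟩ ?_ ?_ ?_
  · rintro K K' hK ⟨μ, hμ, h1⟩
    exact ⟨μ, hμ, fun t ht => h1 t (hK ht)⟩
  · rintro K K' ⟨μ, hμ, h1⟩ ⟨μ', hμ', h2⟩
    refine ⟨min μ μ', lt_min hμ hμ', ?_⟩
    rintro t (ht | ht)
    · obtain ⟨x, hx⟩ := h1 t ht
      exact ⟨x, by have := min_le_left μ μ'; linarith⟩
    · obtain ⟨x, hx⟩ := h2 t ht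
      exact ⟨x, by have := min_le_right μ μ'; linarith⟩
  · intro t₀ ht₀
    obtain ⟨x₀, hlt⟩ := h t₀ ht₀
    refine ⟨{t | Φ t x₀ < Φ t₀ x₀ / 2}, mem_nhdsWithin_of_mem_nhds
      ((hΦ x₀).continuousAt.eventually_lt_const (by linarith)), -Φ t₀ x₀ / 2, by linarith, ?_⟩
    intro t ht
    have ht' : Φ t x₀ < Φ t₀ x₀ / 2 := ht
    exact ⟨x₀, by linarith⟩

/-- a complement of dimension four -/
theorem exists_emb {P Q : Submodule ℝ W} (hP : finrank ℝ P ≤ 5) (hQ : 9 ≤ finrank ℝ Q) :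
    ∃ ι : E4 →ₗ[ℝ] W, (∀ t, ι t ∈ Q) ∧ ∀ t, ι t ∈ P → t = 0 := by
  have h1 : finrank ℝ P + finrank ℝ (Pᗮ : Submodule ℝ W) = 10 := by
    rw [Submodule.finrank_add_finrank_orthogonal, finrank_euclideanSpace_fin]
  have h2 := Submodule.finrank_sup_add_finrank_inf_eq Pᗮ Q
  have h3 : finrank ℝ (Pᗮ ⊔ Q : Submodule ℝ W) ≤ 10 := by
    have := Submodule.finrank_le (Pᗮ ⊔ Q : Submodule ℝ W)
    rwa [finrank_euclideanSpace_fin] at this
  have h4 : finrank ℝ E4 ≤ finrank ℝ (Pᗮ ⊓ Q : Submodule ℝ W) := by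
    rw [finrank_euclideanSpace_fin]
    omega
  obtain ⟨f, hf⟩ := finrank_le_iff_exists_linearMap.1 h4
  refine ⟨(Pᗮ ⊓ Q : Submodule ℝ W).subtype ∘ₗ f, fun t => (f t).2.2, fun t ht => ?_⟩
  have h5 : ((f t : W)) ∈ Pᗮ := (f t).2.1
  have h6 : inner ℝ (f t : W) (f t : W) = 0 := by
    exact (Submodule.mem_orthogonal P _).1 h5 _ ht
  have h7 : (f t : W) = 0 := inner_self_eq_zero.1 h6
  apply hf
  rw [map_zero]
  exact Subtype.ext h7

variable {ev : W →ₗ[ℝ] (RP3 → ℝ)}

/-- the hull lemma: `0` is not a convex combination of the directions in which `g` stays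
nonnegative -/
theorem zero_notMem_hull {g : W} (hg : g ∈ Cn ev) {ι : E4 →ₗ[ℝ] W} {ε : ℝ} (hε : 0 < ε)
    (hι : ∀ t, ι t ∈ Submodule.span ℝ (Fc ev g) → t = 0) {G : Set E4}
    (hG : ∀ t ∈ G, t ≠ 0 ∧ g + ε • ι t ∈ Cn ev) : (0 : E4) ∉ convexHull ℝ G := by
  classical
  intro h0
  obtain ⟨I, _, w, z, hw, hw1, hz, hsum⟩ := mem_convexHull_iff_exists_fintype.1 h0
  have hex : ∃ i, 0 < w i := by
    by_contra hcon
    push Not at hcon
    have h1 : ∑ i, w i = 0 := Finset.sum_eq_zero fun i _ => le_antisymm (hcon i) (hw i)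
    rw [h1] at hw1
    exact zero_ne_one hw1
  obtain ⟨i, hi⟩ := hex
  have hself : g ∈ Fc ev g := ⟨hg, 1, one_pos, by
    rw [one_smul, sub_self]
    intro x
    rw [map_zero]
    exact le_rfl⟩
  have hmem : g + ε • ι (z i) ∈ Fc ev g := by
    refine ⟨(hG _ (hz i)).2, w i, hi, ?_⟩
    have h2 : g - w i • (g + ε • ι (z i)) =
        ∑ j ∈ Finset.univ.erase i, w j • (g + ε • ι (z j)) := by
      have h3 : ∑ j, w j • (g + ε • ι (z j)) = g := by
        simp only [smul_add, Finset.sum_add_distrib, ← Finset.sum_smul, hw1, one_smul]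
        have h4 : ∑ j, w j • ε • ι (z j) = ε • ι (∑ j, w j • z j) := by
          rw [map_sum, Finset.smul_sum]
          refine Finset.sum_congr rfl fun j _ => ?_
          rw [map_smul, smul_comm]
        rw [h4, hsum, map_zero, smul_zero, add_zero]
      rw [← Finset.add_sum_erase _ _ (Finset.mem_univ i)] at h3
      rw [sub_eq_iff_eq_add, add_comm]
      exact h3.symm
    rw [h2]
    intro x
    rw [map_sum, Finset.sum_apply]
    refine Finset.sum_nonneg fun j _ => ?_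
    rw [map_smul, Pi.smul_apply, smul_eq_mul]
    exact mul_nonneg (hw j) ((hG _ (hz j)).2 x)
  have h5 : ι (z i) ∈ Submodule.span ℝ (Fc ev g) := by
    have h6 : ε • ι (z i) ∈ Submodule.span ℝ (Fc ev g) := by
      have := Submodule.sub_mem (Submodule.span ℝ (Fc ev g)) (Submodule.subset_span hmem)
        (Submodule.subset_span hself)
      rwa [add_sub_cancel_left] at this
    have h7 := Submodule.smul_mem _ ε⁻¹ h6
    rwa [smul_smul, inv_mul_cancel₀ hε.ne', one_smul] at h7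
  exact (hG _ (hz i)).1 (hι _ h5)

theorem cont_emb {g : W} (ι : E4 →ₗ[ℝ] W) (ε : ℝ) (lam : E4 →ₗ[ℝ] ℝ) (c : ℝ) (x : RP3) :
    Continuous fun t : E4 => ev (g + ε • ι t) x + lam t + c := by
  have h1 : Continuous lam := LinearMap.continuous_of_finiteDimensional _
  let e : W →ₗ[ℝ] ℝ := (LinearMap.proj x : (RP3 → ℝ) →ₗ[ℝ] ℝ) ∘ₗ ev
  have he : ∀ k, ev k x = e k := fun _ => rfl
  have h2 : Continuous (e ∘ₗ ι) := LinearMap.continuous_of_finiteDimensional _
  have h5 : ∀ t, ev (g + ε • ι t) x = e g + ε * (e ∘ₗ ι) t := by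
    intro t
    rw [he, map_add, map_smul, smul_eq_mul]
    rfl
  simp only [h5]
  exact ((continuous_const.add (continuous_const.mul h2)).add h1).add continuous_const

theorem expand4 (t : E4) : t = ∑ i, t i • (EuclideanSpace.single i 1 : E4) := by
  ext j
  simp [Finset.sum_apply, Pi.single_apply]

end LemJ

open LemJ AS in
theorem j3_core (n1 : N1) (n2 : N2) (hW1a : W1a) (hW1b : W1b) (hSph : R3.S_Sph) (hH3 : R3.S_H3)
    (hRP : R3.S_RP) (xG : T0.XGen) (x1 : T0.XOne) (xP : T0.XPow) {F : Type} [Field F]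
    {ev : W →ₗ[ℝ] (RP3 → ℝ)} (h : CSys F ev) {g : W} (hg : Rk3 ev g) :
    6 ≤ finrank ℝ (Submodule.span ℝ (Fc ev g)) := by
  by_contra hcon
  push Not at hcon
  obtain ⟨hgC, ⟨y, hy⟩, hE⟩ := hg
  have hy0 : ev g y = 0 := hy
  obtain ⟨u, hu⟩ := h.one
  have hu' : ∀ x, ev u x = 1 := fun x => by rw [hu]
  -- the space of the functions which vanish at `y`
  let e : W →ₗ[ℝ] ℝ := (LinearMap.proj y : (RP3 → ℝ) →ₗ[ℝ] ℝ) ∘ₗ ev
  have he : ∀ k, e k = ev k y := fun _ => rfl
  have hQ : 9 ≤ finrank ℝ (LinearMap.ker e) := by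
    have h1 := LinearMap.finrank_range_add_finrank_ker e
    rw [finrank_euclideanSpace_fin] at h1
    have h2 : finrank ℝ (LinearMap.range e) ≤ 1 := by
      have := Submodule.finrank_le (LinearMap.range e)
      rwa [finrank_self] at this
    omega
  obtain ⟨ι, hιy, hιP⟩ := exists_emb (P := Submodule.span ℝ (Fc ev g)) (by omega) hQ
  have hιy' : ∀ t, ev (ι t) y = 0 := fun t => hιy t
  -- `δ`
  obtain ⟨c, hc0, hcE⟩ := even_le_zr (h.cont g) hgC hE
  have hpos : ∃ p, 0 < ev g p := by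
    by_contra h1
    push Not at h1
    refine not_even_univ x1 xP hRP ?_ hE
    ext x
    exact ⟨fun _ => trivial, fun _ => le_antisymm (h1 x) (hgC x)⟩
  obtain ⟨p, hp⟩ := hpos
  obtain ⟨δ, hδ0, hδc, hδp⟩ : ∃ δ > 0, δ ≤ c ∧ δ < ev g p :=
    ⟨min c (ev g p / 2), lt_min hc0 (half_pos hp), min_le_left _ _,
      (min_le_right _ _).trans_lt (half_lt_self hp)⟩
  have hδE : Even {x | ev g x ≤ δ} := hcE.mono fun x hx => le_trans hx hδc
  -- a bound
  have hb : ∃ B > 0, ∀ t ∈ Sp, ∀ x, |ev (ι t) x| ≤ B := by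
    have := cptRP3
    have h1 : ∀ i : Fin 4, ∃ b, 0 ≤ b ∧ ∀ x, |ev (ι (EuclideanSpace.single i 1)) x| ≤ b := by
      intro i
      obtain ⟨b, hb⟩ := isCompact_univ.exists_bound_of_continuousOn
        (h.cont (ι (EuclideanSpace.single i 1))).continuousOn
      exact ⟨max b 0, le_max_right _ _, fun x => (hb x trivial).trans (le_max_left _ _)⟩
    choose b hb0 hb using h1
    refine ⟨∑ i, b i + 1, by have := Finset.sum_nonneg fun i (_ : i ∈ Finset.univ) => hb0 i; linarith,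
      fun t ht x => ?_⟩
    have h2 := expand4 t
    have h3 : ev (ι t) x = ∑ i, t i * ev (ι (EuclideanSpace.single i 1)) x := by
      conv_lhs => rw [h2]
      simp only [map_sum, map_smul, Finset.sum_apply, Pi.smul_apply, smul_eq_mul]
    have h4 : ∀ i, |t i| ≤ 1 := by
      intro i
      have h5 := PiLp.norm_apply_le t i
      rw [mem_sphere_zero_iff_norm.1 ht] at h5
      exact h5
    rw [h3]
    calc |∑ i, t i * ev (ι (EuclideanSpace.single i 1)) x|
        ≤ ∑ i, |t i * ev (ι (EuclideanSpace.single i 1)) x| := Finset.abs_sum_le_sum_abs _ _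
      _ ≤ ∑ i, b i := Finset.sum_le_sum fun i _ => by
          rw [abs_mul]
          calc |t i| * |ev (ι (EuclideanSpace.single i 1)) x| ≤ 1 * b i :=
                mul_le_mul (h4 i) (hb i x) (abs_nonneg _) zero_le_one
            _ = b i := one_mul _
      _ ≤ _ := by linarith
  obtain ⟨B, hB0, hB⟩ := hb
  obtain ⟨ε, hε0, hεB⟩ : ∃ ε > 0, ∀ t ∈ Sp, ∀ x, |ε * ev (ι t) x| ≤ δ / 2 := by
    refine ⟨δ / 2 / B, by positivity, fun t ht x => ?_⟩
    rw [abs_mul, abs_of_pos (by positivity : 0 < δ / 2 / B)]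
    calc δ / 2 / B * |ev (ι t) x| ≤ δ / 2 / B * B :=
          mul_le_mul_of_nonneg_left (hB t ht x) (by positivity)
      _ = δ / 2 := div_mul_cancel₀ _ hB0.ne'
  have hev : ∀ t x, ev (g + ε • ι t) x = ev g x + ε * ev (ι t) x := by
    intro t x
    rw [map_add, map_smul]
    rfl
  -- the set `Γ`
  set G : Set E4 := Sp ∩ {t | ∀ x, 0 ≤ ev (g + ε • ι t) x} with hG
  have hcontx : ∀ x, Continuous fun t : E4 => ev (g + ε • ι t) x := by
    intro x
    have := cont_emb (ev := ev) (g := g) ι ε 0 0 x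
    simpa using this
  have hGc : IsCompact G := by
    refine isCompact_Sp.inter_right ?_
    have h1 : {t : E4 | ∀ x, 0 ≤ ev (g + ε • ι t) x} = ⋂ x, {t | 0 ≤ ev (g + ε • ι t) x} := by
      ext t
      simp
    rw [h1]
    exact isClosed_iInter fun x => isClosed_le continuous_const (hcontx x)
  have hG0 : (0 : E4) ∉ convexHull ℝ G :=
    zero_notMem_hull hgC hε0 hιP fun t ht => ⟨ne_zero_of_mem_Sp ht.1, ht.2⟩
  obtain ⟨lam, a, hlam1, hlam2⟩ := geometric_hahn_banach_closed_point (convex_convexHull ℝ G)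
    (Q.qCvh _ _ hGc).isClosed hG0
  rw [map_zero] at hlam2
  have hlam : ∀ t ∈ G, lam t < 0 := fun t ht => (hlam1 t (subset_convexHull ℝ _ ht)).trans hlam2
  -- the other part of the sphere
  have hK : IsCompact (Sp ∩ {t : E4 | 0 ≤ lam t}) :=
    isCompact_Sp.inter_right (isClosed_le continuous_const lam.continuous)
  obtain ⟨μ, hμ0, hμ⟩ := unif_neg hK (fun t x => ev (g + ε • ι t) x) hcontx (by
    rintro t ⟨ht, ht0⟩
    by_contra h1
    push Not at h1
    exact absurd (hlam t ⟨ht, h1⟩) (not_lt.2 ht0))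
  -- scale `lam`
  obtain ⟨L, hL0, hL⟩ : ∃ L > 0, ∀ t ∈ Sp, |lam t| ≤ L := by
    refine ⟨‖lam‖ + 1, by positivity, fun t ht => ?_⟩
    have h1 := lam.le_opNorm t
    rw [mem_sphere_zero_iff_norm.1 ht, mul_one] at h1
    have h2 : |lam t| ≤ ‖lam‖ := h1
    linarith
  set s : ℝ := min (δ / 2) (μ / 2) / L with hs
  have hs0 : 0 < s := div_pos (lt_min (half_pos hδ0) (half_pos hμ0)) hL0
  let lam' : E4 →ₗ[ℝ] ℝ := s • (lam : E4 →ₗ[ℝ] ℝ)
  have hlam' : ∀ t, lam' t = s * lam t := fun _ => rfl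
  have hlb : ∀ t ∈ Sp, |lam' t| ≤ min (δ / 2) (μ / 2) := by
    intro t ht
    rw [hlam', abs_mul, abs_of_pos hs0]
    calc s * |lam t| ≤ s * L := mul_le_mul_of_nonneg_left (hL t ht) hs0.le
      _ = _ := div_mul_cancel₀ _ hL0.ne'
  have hneg : ∀ t ∈ Sp, ∃ x, ev (g + ε • ι t) x + lam' t + 0 < 0 := by
    intro t ht
    by_cases h1 : 0 ≤ lam t
    · obtain ⟨x, hx⟩ := hμ t ⟨ht, h1⟩
      have h2 := (abs_le.1 ((hlb t ht).trans (min_le_right _ _))).2
      exact ⟨x, by linarith⟩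
    · refine ⟨y, ?_⟩
      rw [hev, hy0, hιy', hlam']
      have h2 : s * lam t < 0 := mul_neg_of_pos_of_neg hs0 (not_le.1 h1)
      linarith
  obtain ⟨η, hη0, hη⟩ := unif_neg isCompact_Sp (fun t x => ev (g + ε • ι t) x + lam' t + 0)
    (cont_emb ι ε lam' 0) hneg
  -- the data
  let m : E4 → E4 := fun x => WithLp.toLp 2 fun i =>
    -(ε * ev (ι (EuclideanSpace.single i 1)) (pj x) + lam' (EuclideanSpace.single i 1))
  let v : E4 → ℝ := fun x => ev g (pj x) + η
  have hinner : ∀ t x, inner ℝ t (m x) = -(ε * ev (ι t) (pj x) + lam' t) := by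
    intro t x
    have h2 := expand4 t
    have h3 : ev (ι t) (pj x) = ∑ i, t i * ev (ι (EuclideanSpace.single i 1)) (pj x) := by
      conv_lhs => rw [h2]
      simp only [map_sum, map_smul, Finset.sum_apply, Pi.smul_apply, smul_eq_mul]
    have h4 : lam' t = ∑ i, t i * lam' (EuclideanSpace.single i 1) := by
      conv_lhs => rw [h2]
      simp only [map_sum, map_smul, smul_eq_mul]
    rw [h3, h4, Finset.mul_sum, ← Finset.sum_add_distrib, ← Finset.sum_neg_distrib,
      PiLp.inner_apply]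
    refine Finset.sum_congr rfl fun i _ => ?_
    show inner ℝ (t i) (-(ε * ev (ι (EuclideanSpace.single i 1)) (pj x) +
      lam' (EuclideanSpace.single i 1))) = _
    rw [real_inner_eq_re_inner, RCLike.inner_apply]
    simp
    ring
  have hD : J3.Dat v m := by
    refine ⟨?_, ?_, fun x => ?_, fun x => ?_⟩
    · exact ((h.cont g).comp_continuousOn pj_cont).add continuousOn_const
    · have h5 : ContinuousOn (fun x : E4 => fun i : Fin 4 =>
          -(ε * ev (ι (EuclideanSpace.single i 1)) (pj x) + lam' (EuclideanSpace.single i 1)))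
          Sp := by
        refine continuousOn_pi.2 fun i => ?_
        exact (((continuousOn_const.mul ((h.cont _).comp_continuousOn pj_cont))).add
          continuousOn_const).neg
      exact (PiLp.continuous_toLp 2 _).comp_continuousOn h5
    · show ev g (pj (-x)) + η = _
      rw [pj_neg']
    · show WithLp.toLp 2 (fun i => -(ε * ev (ι (EuclideanSpace.single i 1)) (pj (-x)) +
        lam' (EuclideanSpace.single i 1))) = _
      rw [pj_neg']
  have hfib : ∀ t, J3.Ht v m t =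
      up {z | 0 ≤ ev (-(g + ε • ι t) - (lam' t + η) • u) z} := by
    intro t
    ext x
    have h6 : ev (-(g + ε • ι t) - (lam' t + η) • u) (pj x) =
        inner ℝ t (m x) - v x := by
      rw [map_sub, map_neg, map_smul, Pi.sub_apply, Pi.neg_apply, Pi.smul_apply, hev, hu', hinner]
      show _ = _ - (ev g (pj x) + η)
      rw [smul_eq_mul]
      ring
    constructor
    · rintro ⟨h7, h8⟩
      refine ⟨h7, ?_⟩
      show 0 ≤ ev (-(g + ε • ι t) - (lam' t + η) • u) (pj x)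
      rw [h6]
      linarith
    · rintro ⟨h7, h8⟩
      refine ⟨h7, ?_⟩
      have h9 : 0 ≤ ev (-(g + ε • ι t) - (lam' t + η) • u) (pj x) := h8
      rw [h6] at h9
      linarith
  have hsub : ∀ t ∈ Sp, ∀ x, v x ≤ inner ℝ t (m x) → ev g (pj x) ≤ δ := by
    intro t ht x hx
    rw [hinner] at hx
    have h6 := (abs_le.1 (hεB t ht (pj x))).1
    have h7 := (abs_le.1 ((hlb t ht).trans (min_le_left _ _))).1
    have h8 : ev g (pj x) + η ≤ -(ε * ev (ι t) (pj x) + lam' t) := hx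
    linarith
  refine J3.top n1 n2 hW1a hW1b hSph hH3 hD (fun x _ => ?_) (fun t ht => ?_)
    (x₀ := (pj_surj p).choose) (pj_surj p).choose_spec.1 ?_
  · show 0 < ev g (pj x) + η
    have := hgC (pj x)
    linarith
  · rw [hfib]
    refine acy_half xG x1 xP n2 h _ ?_ ?_
    · obtain ⟨x, hx⟩ := hη t ht
      refine ⟨x, ?_⟩
      show 0 ≤ ev (-(g + ε • ι t) - (lam' t + η) • u) x
      rw [map_sub, map_neg, map_smul, Pi.sub_apply, Pi.neg_apply, Pi.smul_apply, hu', smul_eq_mul]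
      linarith
    · refine hδE.mono ?_
      intro z hz
      obtain ⟨x, hx, rfl⟩ := pj_surj z
      have h9 : x ∈ J3.Ht v m t := by
        rw [hfib]
        exact ⟨hx, hz⟩
      exact hsub t ht x h9.2
  · obtain ⟨hx, hxp⟩ := (pj_surj p).choose_spec
    set x₀ := (pj_surj p).choose
    by_contra h10
    push Not at h10
    have hvpos : 0 < v x₀ := by
      show 0 < ev g (pj x₀) + η
      have := hgC (pj x₀)
      linarith
    have hm0 : 0 < ‖m x₀‖ := hvpos.trans_le h10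
    have ht : ‖m x₀‖⁻¹ • m x₀ ∈ Sp := by
      rw [mem_sphere_zero_iff_norm, norm_smul, norm_inv, norm_norm]
      exact inv_mul_cancel₀ hm0.ne'
    have h11 : inner ℝ (‖m x₀‖⁻¹ • m x₀) (m x₀) = ‖m x₀‖ := by
      rw [real_inner_smul_left, real_inner_self_eq_norm_sq]
      field_simp
    have h12 := hsub _ ht x₀ (by rw [h11]; exact h10)
    rw [hxp] at h12
    linarith

open AS in
/-- **J3.** -/
theorem j3 (n1 : N1) (n2 : N2) (hW1a : W1a) (hW1b : W1b) (hSph : R3.S_Sph) (hH3 : R3.S_H3)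
    (hRP : R3.S_RP) (xG : T0.XGen) (x1 : T0.XOne) (xP : T0.XPow) : J3Stmt := by
  rintro F _ ev h Φ hΦ ⟨g, hg, hr⟩
  refine (j3_core n1 n2 hW1a hW1b hSph hH3 hRP xG x1 xP h hr).trans ?_
  refine Submodule.finrank_mono (Submodule.span_mono ?_)
  rintro k ⟨hk, t, ht, hkt⟩
  have h1 : t • k ∈ Φ := by
    refine hΦ.ext _ ?_ _ hkt ?_
    · intro x
      rw [map_smul, Pi.smul_apply, smul_eq_mul]
      exact mul_nonneg ht.le (hk x)
    · rwa [add_sub_cancel]
  have h2 := hΦ.smul t⁻¹ (inv_nonneg.2 ht.le) _ h1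
  rwa [smul_smul, inv_mul_cancel₀ ht.ne', one_smul] at h2

end C3

end TightRP
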