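import Pool.Agent.Lib.MP_7cdc3e_gt.C.J3.Main
import Pool.Agent.Lib.MP_7cdc3e_gt.T0.All
import Pool.Agent.Lib.AS.AllL

/-!
# MP_7cdc3e_gt, C32: (J3) without hypotheses
-/

set_option autoImplicit false

namespace TightRP

namespace C3

/-- (J3): faces of rank three have dimension at least six -/
theorem okJ3 : J3Stmt := j3 AS.okN1 AS.okN2 AS.okW1a AS.okW1b AS.R3.okSph AS.R3.okH3 AS.R3.okRP
  T0.oxGen T0.oxOne T0.oxPow

end C3

end TightRP
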