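import Pool.Agent.Lib.MP_7cdc3e_gt.C.T4a.Defs
import Pool.Agent.Lib.AS.HC
import Pool.Agent.Lib.AS.SpecLG2
import Pool.Agent.Lib.AS.R3.Spec

/-!
# Lemma J: the topological part

There is no family, parametrized by the three-sphere, of acyclic closed sets `{x | u x ≤ ⟪t, m x⟫}` in
`RP³` (`u > 0`) whose union is not everything.
-/

set_option autoImplicit false

namespace AS

namespace J3

open R3 LN

/-- the total space -/
def It (u : E4 → ℝ) (m : E4 → E4) : Set (E4 × E4) :=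
  {q | q.1 ∈ S ∧ q.2 ∈ S ∧ u q.2 ≤ inner ℝ q.1 (m q.2)}

/-- the fibre over `t` -/
def Ht (u : E4 → ℝ) (m : E4 → E4) (t : E4) : Set E4 := {x | x ∈ S ∧ u x ≤ inner ℝ t (m x)}

/-- the image in `S³` -/
def Xs (u : E4 → ℝ) (m : E4 → E4) : Set E4 := {x | x ∈ S ∧ u x ≤ ‖m x‖}

/-- continuous even functions on `S³` -/
structure Dat (u : E4 → ℝ) (m : E4 → E4) : Prop where
  uc : ContinuousOn u S
  mc : ContinuousOn m S
  ue : ∀ x, u (-x) = u x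
  me : ∀ x, m (-x) = m x

theorem mem_SS {x : E4} : x ∈ S ↔ ‖x‖ = 1 := by
  rw [mem_sphere_zero_iff_norm]

/-! ### the projections -/

theorem fi_cpt {u : E4 → ℝ} {m : E4 → E4} (d : Dat u m) : IsCompact (It u m) := by
  have h1 : IsCompact (S ×ˢ S : Set (E4 × E4)) := isCompact_S.prod isCompact_S
  have h2 : ContinuousOn (fun q : E4 × E4 => u q.2) (S ×ˢ S) :=
    d.uc.comp continuousOn_snd fun q hq => hq.2
  have h3 : ContinuousOn (fun q : E4 × E4 => (inner ℝ q.1 (m q.2) : ℝ)) (S ×ˢ S) :=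
    continuousOn_fst.inner (d.mc.comp continuousOn_snd fun q hq => hq.2)
  have h4 : IsClosed {q | q ∈ (S ×ˢ S : Set (E4 × E4)) ∧ u q.2 ≤ inner ℝ q.1 (m q.2)} :=
    h1.isClosed.isClosed_le h2 h3
  refine h1.of_isClosed_subset (s := S ×ˢ S) ?_ fun q hq => ⟨hq.1, hq.2.1⟩
  have h5 : It u m = {q | q ∈ (S ×ˢ S : Set (E4 × E4)) ∧ u q.2 ≤ inner ℝ q.1 (m q.2)} := by
    ext q
    exact ⟨fun h => ⟨⟨h.1, h.2.1⟩, h.2.2⟩, fun h => ⟨h.1.1, h.1.2, h.2⟩⟩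
  rw [h5]
  exact h4

theorem fi_ok {u : E4 → ℝ} {m : E4 → E4} (d : Dat u m) : Ok (PX E4) (It u m) := by
  refine ⟨fi_cpt d, ivS_PX.mpr fun q hq => ⟨hq.1, neg_mem_S hq.2.1, ?_⟩, fr_PX fun q hq => hq.2.1⟩
  change u (-q.2) ≤ inner ℝ q.1 (m (-q.2))
  rw [d.ue, d.me]
  exact hq.2.2

theorem fi_cs {u : E4 → ℝ} {m : E4 → E4} (d : Dat u m) : Cs (Pm E4) (Xs u m) := by
  refine ⟨isClosed_S.isClosed_le d.uc d.mc.norm, fun x hx => hx.1,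
    ivS_Pm.mpr fun x hx => ⟨neg_mem_S hx.1, ?_⟩⟩
  rw [d.ue, d.me]
  exact hx.2

theorem fi1 {u : E4 → ℝ} {m : E4 → E4} (d : Dat u m) :
    Fib (PX E4) ∅ (It u m) ⊥ ∅ S Prod.fst := by
  refine ⟨⟨fi_ok d, OkD.empty _, continuousOn_fst, eqv_fst⟩, ?_,
      ⟨isCompact_sphere _ _, IvS.bot _, Fr.bot _⟩, OkD.empty _, fun q hq => hq.1,
      fun q _ => iff_of_false (Set.notMem_empty _) (Set.notMem_empty _)⟩
  rw [Subgroup.coe_bot]
  exact Set.finite_singleton _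

theorem fi2 {u : E4 → ℝ} {m : E4 → E4} (d : Dat u m) :
    Fib (PX E4) ∅ (It u m) (Pm E4) ∅ (Xs u m) Prod.snd := by
  refine ⟨⟨fi_ok d, OkD.empty _, continuousOn_snd, eqv_snd⟩, fin_Pm, (fi_cs d).ok gp_Pm,
      OkD.empty _, fun q hq => ⟨hq.2.1, ?_⟩,
      fun q _ => iff_of_false (Set.notMem_empty _) (Set.notMem_empty _)⟩
  have h1 : inner ℝ q.1 (m q.2) ≤ ‖q.1‖ * ‖m q.2‖ := real_inner_le_norm _ _
  rw [mem_SS.mp hq.1, one_mul] at h1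
  exact hq.2.2.trans h1

theorem fi3 (u : E4 → ℝ) (m : E4 → E4) : Quo (PX E4) ⊥ (It u m) (Pm E4) Prod.snd := by
  refine ⟨fin_PX, bot_le, ?_, ?_, ?_⟩
  · intro g hg x
    rw [Subgroup.mem_bot.mp hg]
    rfl
  · rintro g (rfl | rfl) hg x hx hgx
    · exact hg (Subgroup.one_mem _)
    · exact ne_neg_of_mem hx.2.1 hgx.symm
  · rintro g' (rfl | rfl)
    · exact ⟨1, Subgroup.one_mem _, fun _ => rfl⟩
    · exact ⟨ngX E4, ngX_mem, fun _ => rfl⟩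

/-! ### slices -/

section transport

variable {X Y : Type} [MetricSpace X] [MetricSpace Y] {Γ : Subgroup (X ≃ᵢ X)} {C : Set X}
  {Γ' : Subgroup (Y ≃ᵢ Y)} {C' : Set Y}

theorem sl_one {f : X → Y} (hf : Adm Γ ∅ C Γ' ∅ C' f) :
    pull f hf 0 (one Γ' C') = one Γ C := by
  unfold one
  rw [pull_cl]

theorem sl_id {k : X → X} (hk : Adm Γ ∅ C Γ ∅ C k) (h : ∀ x ∈ C, k x = x) {n : ℕ}
    (x : H Γ ∅ n C) : pull k hk n x = x := by
  obtain ⟨φ, hφ, rfl⟩ := cl_surj x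
  rw [pull_cl, cl_eq_cl]
  refine Bnd_of_Z0 (Iv.add (hk.iv hφ.1) hφ.1) ((Z0.zero _ _).congr fun l _ hl => ?_)
  rw [Pi.add_apply]
  have h1 : l.map k = l := by
    have h2 : l.map k = l.map (fun x => x) := List.map_congr_left fun x hx => h x (hl x hx)
    rw [h2, List.map_id']
  rw [h1, z2_add_self]
  rfl

theorem sl_inv {f : X → Y} {g : Y → X} (hf : Adm Γ ∅ C Γ' ∅ C' f)
    (hg : Adm Γ' ∅ C' Γ ∅ C g) (h : ∀ x ∈ C, g (f x) = x) {n : ℕ} (x : H Γ ∅ n C) :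
    pull f hf n (pull g hg n x) = x := by
  rw [pull_pull]
  exact sl_id _ h x

theorem sl_acy {f : X → Y} {g : Y → X} (hf : Adm Γ ∅ C Γ' ∅ C' f)
    (hg : Adm Γ' ∅ C' Γ ∅ C g) (h : ∀ x ∈ C, g (f x) = x) (hA : Acy Γ' C') : Acy Γ C := by
  obtain ⟨h1, h2, h3⟩ := hA
  refine ⟨fun x => ?_, fun h0 => h2 ?_, fun n x => ?_⟩
  · rw [← sl_inv hf hg h x]
    rcases h1 (pull g hg 0 x) with h4 | h4
    · left
      rw [h4, map_zero]
    · right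
      rw [h4, sl_one]
  · rw [← sl_one hg, h0, map_zero]
  · rw [← sl_inv hf hg h x, h3 n (pull g hg _ x), map_zero]

end transport

theorem sl_snd (t : E4) (F : Set E4) :
    Adm (PX E4) ∅ ({t} ×ˢ F) (Pm E4) ∅ F Prod.snd :=
  ⟨fun _ hx => hx.2, fun _ _ hx => hx.elim,
    fun ε hε => ⟨ε, hε, fun _ _ _ _ h => lt_of_le_of_lt (le_max_right _ _) h⟩, eqv_snd⟩

theorem sl_mk (t : E4) (F : Set E4) :
    Adm (Pm E4) ∅ F (PX E4) ∅ ({t} ×ˢ F) (fun x => (t, x)) := by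
  refine ⟨fun x hx => ⟨rfl, hx⟩, fun _ _ hx => hx.elim, fun ε hε => ⟨ε, hε, ?_⟩, ?_⟩
  · intro x _ y _ h
    rw [Prod.dist_eq]
    exact max_lt (by rw [dist_self]; exact hε) h
  · rintro g (rfl | rfl)
    · exact ⟨1, Subgroup.one_mem _, fun _ => rfl⟩
    · exact ⟨ngX E4, ngX_mem, fun _ => rfl⟩

theorem sl_fst (p : E4) (F : Set E4) :
    Adm (⊥ : Subgroup ((E4 × E4) ≃ᵢ (E4 × E4))) ∅ (F ×ˢ {p}) (⊥ : Subgroup (E4 ≃ᵢ E4)) ∅ F
      Prod.fst := by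
  refine ⟨fun _ hx => hx.1, fun _ _ hx => hx.elim,
    fun ε hε => ⟨ε, hε, fun _ _ _ _ h => lt_of_le_of_lt (le_max_left _ _) h⟩, ?_⟩
  intro g hg
  rw [Subgroup.mem_bot] at hg
  subst hg
  exact ⟨1, Subgroup.one_mem _, fun _ => rfl⟩

theorem sl_mk' (p : E4) (F : Set E4) :
    Adm (⊥ : Subgroup (E4 ≃ᵢ E4)) ∅ F (⊥ : Subgroup ((E4 × E4) ≃ᵢ (E4 × E4))) ∅ (F ×ˢ {p})
      (fun t => (t, p)) := by
  refine ⟨fun x hx => ⟨hx, rfl⟩, fun _ _ hx => hx.elim, fun ε hε => ⟨ε, hε, ?_⟩, ?_⟩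
  · intro x _ y _ h
    rw [Prod.dist_eq]
    exact max_lt h (by rw [dist_self]; exact hε)
  · intro g hg
    rw [Subgroup.mem_bot] at hg
    subst hg
    exact ⟨1, Subgroup.one_mem _, fun _ => rfl⟩

theorem sl1 (t : E4) (F : Set E4) (hA : Acy (Pm E4) F) : Acy (PX E4) ({t} ×ˢ F) := by
  refine sl_acy (sl_snd t F) (sl_mk t F) ?_ hA
  rintro ⟨t', x⟩ ⟨ht, _⟩
  have ht' : t' = t := ht
  rw [ht']

theorem sl2 (p : E4) (F : Set E4) (hA : Acy (⊥ : Subgroup (E4 ≃ᵢ E4)) F) :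
    Acy (⊥ : Subgroup ((E4 × E4) ≃ᵢ (E4 × E4))) (F ×ˢ {p}) := by
  refine sl_acy (sl_fst p F) (sl_mk' p F) ?_ hA
  rintro ⟨t, x⟩ ⟨_, hx⟩
  have hx' : x = p := hx
  rw [hx']

/-! ### caps -/

/-- the convex combination -/
noncomputable def cpw (p : E4) (τ : ℝ) (t : E4) : E4 := (1 - τ) • t + τ • p

theorem cpw_inner {v p t : E4} {c τ : ℝ} (hp : c ≤ inner ℝ p v) (ht : c ≤ inner ℝ t v)
    (h0 : 0 ≤ τ) (h1 : τ ≤ 1) : c ≤ inner ℝ (cpw p τ t) v := by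
  rw [cpw, inner_add_left, real_inner_smul_left, real_inner_smul_left]
  have h2 := mul_le_mul_of_nonneg_left hp h0
  have h3 := mul_le_mul_of_nonneg_left ht (sub_nonneg.mpr h1)
  linarith

theorem cpw_norm {p t : E4} {τ : ℝ} (hp : ‖p‖ = 1) (ht : ‖t‖ = 1)
    (h0 : 0 ≤ τ) (h1 : τ ≤ 1) : ‖cpw p τ t‖ ≤ 1 := by
  rw [cpw]
  refine (norm_add_le _ _).trans ?_
  rw [norm_smul, norm_smul, hp, ht, Real.norm_of_nonneg h0, Real.norm_of_nonneg (sub_nonneg.mpr h1)]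
  linarith

theorem cpw_ne {v p t : E4} {c τ : ℝ} (hc : 0 < c) (hp : c ≤ inner ℝ p v)
    (ht : c ≤ inner ℝ t v) (h0 : 0 ≤ τ) (h1 : τ ≤ 1) : cpw p τ t ≠ 0 := by
  intro h
  have h2 := cpw_inner hp ht h0 h1
  rw [h, inner_zero_left] at h2
  linarith

theorem capE (n1 : N1) (n2 : N2) (v : E4) (c : ℝ) (hc : 0 < c) (hcv : c ≤ ‖v‖) :
    Acy (⊥ : Subgroup (E4 ≃ᵢ E4)) {t | t ∈ S ∧ c ≤ inner ℝ t v} := by
  have hv : ‖v‖ ≠ 0 := (lt_of_lt_of_le hc hcv).ne'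
  have hpn : ‖‖v‖⁻¹ • v‖ = 1 := by
    rw [norm_smul, norm_inv, norm_norm]
    exact inv_mul_cancel₀ hv
  have hpi : c ≤ inner ℝ (‖v‖⁻¹ • v) v := by
    rw [real_inner_smul_left, real_inner_self_eq_norm_sq]
    have : ‖v‖⁻¹ * ‖v‖ ^ 2 = ‖v‖ := by field_simp
    rw [this]
    exact hcv
  generalize ‖v‖⁻¹ • v = p at hpn hpi
  have hcl : IsClosed {t : E4 | c ≤ inner ℝ t v} :=
    isClosed_le continuous_const (continuous_id.inner continuous_const)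
  have hcpt : IsCompact {t : E4 | t ∈ S ∧ c ≤ inner ℝ t v} :=
    (isCompact_sphere (0 : E4) 1).inter_right hcl
  have hwc : Continuous (fun q : ℝ × E4 => cpw p q.1 q.2) := by
    unfold cpw
    fun_prop
  refine acy_of_contractible n1 n2 (p := p) ⟨mem_SS.mpr hpn, hpi⟩ hcpt
    (fun τ t => ‖cpw p τ t‖⁻¹ • cpw p τ t) ?_ ?_ ?_ ?_
  · refine ContinuousOn.smul (ContinuousOn.inv₀ hwc.norm.continuousOn ?_) hwc.continuousOn
    rintro ⟨τ, t⟩ ⟨hτ, ht⟩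
    exact norm_ne_zero_iff.mpr (cpw_ne hc hpi ht.2 hτ.1 hτ.2)
  · intro τ hτ t ht
    have hne := norm_ne_zero_iff.mpr (cpw_ne hc hpi ht.2 hτ.1 hτ.2)
    have hpos : 0 < ‖cpw p τ t‖ := lt_of_le_of_ne (norm_nonneg _) (Ne.symm hne)
    refine ⟨?_, ?_⟩
    · rw [mem_SS, norm_smul, norm_inv, norm_norm]
      exact inv_mul_cancel₀ hne
    · rw [real_inner_smul_left]
      have h1 := cpw_inner hpi ht.2 hτ.1 hτ.2
      have h2 := cpw_norm hpn (mem_SS.mp ht.1) hτ.1 hτ.2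
      have h3 : 1 ≤ ‖cpw p τ t‖⁻¹ := (one_le_inv₀ hpos).mpr h2
      nlinarith
  · intro t ht
    have h1 : cpw p 0 t = t := by simp [cpw]
    show ‖cpw p 0 t‖⁻¹ • cpw p 0 t = t
    rw [h1, mem_SS.mp ht.1, inv_one, one_smul]
  · intro t ht
    have h1 : cpw p 1 t = p := by simp [cpw]
    show ‖cpw p 1 t‖⁻¹ • cpw p 1 t = p
    rw [h1, hpn, inv_one, one_smul]

/-! ### the theorem -/

/-- the fibre over `t` -/
theorem xh_fst {u : E4 → ℝ} {m : E4 → E4} {t : E4} (ht : t ∈ S) :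
    ov (It u m) Prod.fst {t} = {t} ×ˢ Ht u m t := by
  ext q
  constructor
  · rintro ⟨⟨_, h2, h3⟩, h4⟩
    have h5 : q.1 = t := h4
    refine ⟨h4, h2, ?_⟩
    rw [← h5]
    exact h3
  · rintro ⟨h4, h2, h3⟩
    have h5 : q.1 = t := h4
    refine ⟨⟨?_, h2, ?_⟩, h4⟩
    · rw [h5]
      exact ht
    · rw [h5]
      exact h3

/-- the fibre over `p` -/
theorem xh_snd {u : E4 → ℝ} {m : E4 → E4} {p : E4} (hp : p ∈ S) :
    ov (It u m) Prod.snd {p} = {t | t ∈ S ∧ u p ≤ inner ℝ t (m p)} ×ˢ {p} := by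
  ext q
  constructor
  · rintro ⟨⟨h1, _, h3⟩, h4⟩
    have h5 : q.2 = p := h4
    refine ⟨⟨h1, ?_⟩, h4⟩
    rw [← h5]
    exact h3
  · rintro ⟨⟨h1, h3⟩, h4⟩
    have h5 : q.2 = p := h4
    refine ⟨⟨h1, ?_, ?_⟩, h4⟩
    · rw [h5]
      exact hp
    · rw [h5]
      exact h3

/-- there is no family of acyclic sets `{u ≤ ⟪t, m⟫}` (`u > 0`, `t ∈ S³`) in `RP³` whose union is not
everything -/
theorem top (n1 : N1) (n2 : N2) (hW1a : W1a) (hW1b : W1b) (hSph : S_Sph) (hH3 : S_H3)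
    {u : E4 → ℝ} {m : E4 → E4} (hD : Dat u m) (hu : ∀ x ∈ S, 0 < u x)
    (hac : ∀ t ∈ S, Acy (Pm E4) (Ht u m t)) {x₀ : E4} (hx₀ : x₀ ∈ S) (hx₀' : ‖m x₀‖ < u x₀) :
    False := by
  have hcs := fi_cs hD
  have hf1 := fi1 hD
  have hf2 := fi2 hD
  have hq := fi3 u m
  -- the first projection
  have e1 : It u m = ov (It u m) Prod.fst S := by
    ext q
    exact ⟨fun hq => ⟨hq, hq.1⟩, fun hq => hq.1⟩
  have b1 : ∀ A, A = ov (It u m) Prod.fst S → ∀ hA : Adm (PX E4) ∅ A ⊥ ∅ S Prod.fst,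
      Function.Bijective (pull Prod.fst hA 3) := by
    rintro _ rfl hA
    refine hW1a (E4 × E4) E4 (PX E4) ∅ (It u m) ∅ S Prod.fst hf1 (fun t ht _ => ?_) S
      (isCompact_sphere _ _) (Set.Subset.refl _) 3
    rw [xh_fst ht]
    exact sl1 t (Ht u m t) (hac t ht)
  -- the second projection
  have e2 : It u m = ov (It u m) Prod.snd (Xs u m) := by
    ext q
    refine ⟨fun hq => ⟨hq, hf2.maps q hq⟩, fun hq => hq.1⟩
  have b2 : ∀ A, A = ov (It u m) Prod.snd (Xs u m) →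
      ∀ hA : Adm (PX E4) ∅ A (Pm E4) ∅ (Xs u m) Prod.snd,
      Function.Bijective (pull Prod.snd hA 3) := by
    rintro _ rfl hA
    refine hW1b (E4 × E4) E4 (PX E4) ⊥ ∅ (It u m) (Pm E4) ∅ (Xs u m) Prod.snd hf2 hq
      (fun p hp _ => ?_) (Xs u m) ⟨hcs.cpt, hcs.inv, Set.Subset.refl _⟩ 3
    rw [xh_snd hp.1]
    exact sl2 p _ (capE n1 n2 (m p) (u p) (hu p hp.1) hp.2)
  have a1 : Adm (PX E4) ∅ (It u m) ⊥ ∅ S Prod.fst := by
    have h1 := hf1.adm S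
    rwa [← e1] at h1
  have a2 : Adm (PX E4) ∅ (It u m) (Pm E4) ∅ (Xs u m) Prod.snd := by
    have h1 := hf2.adm (Xs u m)
    rwa [← e2] at h1
  have c1 := b1 _ e1 a1
  have c2 := b2 _ e2 a2
  obtain ⟨s, hs⟩ := hSph.2.2
  obtain ⟨y, hy⟩ := c2.2 (pull Prod.fst a1 3 s)
  have h1 : y = 0 := by
    refine hH3 (Pm E4) (Xs u m) 3 gp_Pm hcs (Or.inr ⟨le_refl 3, ?_⟩) y
    intro h2
    have h3 : x₀ ∈ Xs u m := by
      rw [h2]
      exact hx₀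
    exact absurd h3.2 (not_le.mpr hx₀')
  rw [h1, map_zero] at hy
  exact hs (c1.1 (hy.symm.trans (map_zero _).symm))

end J3

end AS
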